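import Pool.Agent.K4H11.RFRS.Main

/-!
# Amalgams of virtually RFRS groups over infinite cyclic groups

`IsRFRS` is the definition of the problem: `G` is finitely generated and has finite-index normal
subgroups `G = U 0 ≥ U 1 ≥ ...` with trivial intersection such that `U (i + 1)` contains every
element of `U i` with a positive power in the commutator subgroup of `U i`, that is, the kernel of
`U i → H₁(U i) ⊗ ℚ`.

The theorem: let `G₁` and `G₂` be finitely generated virtually RFRS groups and `C` an infinite cyclic
group embedded in both. If the image of `C` in `H₁(G₁)` or in `H₁(G₂)` is infinite then `G₁ *_C G₂`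
is virtually RFRS.

For the amalgams `G` of the problem, which are free-by-cyclic, this settles the question for the class
of the virtually RFRS groups whenever `C` is not contained in the kernel of every homomorphism
`G → ℤ`, so for instance when `C` is not contained in the free kernel of a fibration of `G`. What
remains is the case that `C` is mapped to the torsion of both `H₁(G₁)` and `H₁(G₂)`.

The proof. Let `T i` be the canonical tower of a group: `T (i + 1)` consists of the elements of `T i`
on which all the homomorphisms `T i → ℤ` are divisible by `(i + 2)!`. A finitely generated group is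
RFRS if and only if its tower has trivial intersection. Let `K` be a normal subgroup of finite index of
`G = G₁ *_C G₂`. An element of all the `T i (K)` that is not conjugate into a factor gives closed
walks in the quotients of the Bass-Serre tree by the `T i (K)`. A shortest closed walk in one of the
quotients that lifts to the next one passes through its first edge only once, and counting the passages
through this edge gives a homomorphism `T i (K) → ℤ` with the value `1` or `-1` on an element of
`T (i + 1) (K)`, a contradiction. So it is enough that the towers of `K` separate the elements of the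
factors, and the elements of the factors from `C`. This is so if there are homomorphisms from `K` to
normal RFRS subgroups of finite index of `G₁` and of `G₂` that are the identity on the intersections
with `K`. If `C` is infinite in `H₁(G₁)` they are constructed by gluing bundles over the
two factors along the circles over `C`.
-/

set_option linter.unusedSectionVars false
set_option linter.dupNamespace false

universe u

namespace Pool.Agent.Results.MP_3982fc_al.InfiniteInHomology

open Pool.Agent.R632.VRC

/-- `G` is RFRS: it is finitely generated and has a chain of finite-index normal subgroups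
`G = U 0 ≥ U 1 ≥ ...` with trivial intersection such that `U (i + 1)` contains the kernel of the
homomorphism `U i → H₁(U i) ⊗ ℚ`, i.e. the elements of `U i` some positive power of which is in the
commutator subgroup of `U i`. -/
def IsRFRS (G : Type u) [Group G] : Prop :=
  Group.FG G ∧ ∃ U : ℕ → Subgroup G, U 0 = ⊤ ∧ (∀ i, (U i).Normal) ∧ (∀ i, (U i).FiniteIndex) ∧
    (∀ i, U (i + 1) ≤ U i) ∧
    (∀ i, ∀ x ∈ U i, ∀ n : ℕ, 0 < n → x ^ n ∈ ⁅U i, U i⁆ → x ∈ U (i + 1)) ∧ ⨅ i, U i = ⊥

/-- Some subgroup of finite index is RFRS. -/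
def IsVirtuallyRFRS (G : Type u) [Group G] : Prop :=
  ∃ K : Subgroup G, K.FiniteIndex ∧ IsRFRS K

/-- The amalgamated free product of `G₁` and `G₂` along `a` and `b`. -/
abbrev Amalgam {G₁ G₂ H : Type*} [Group G₁] [Group G₂] [Group H] (a : H →* G₁) (b : H →* G₂) :=
  Monoid.Coprod G₁ G₂ ⧸ Subgroup.normalClosure (Set.range fun h : H =>
    (Monoid.Coprod.inl (a h) : Monoid.Coprod G₁ G₂) * (Monoid.Coprod.inr (b h))⁻¹)

lemma swap {P Q H Γ : Type u} [Group P] [Group Q] [Group H] [Group Γ] {a : H →* P} {b : H →* Q}
    {i : P →* Γ} {j : Q →* Γ} (h : Amalg (famHom a b) (famOut i j)) :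
    Amalg (famHom b a) (famOut j i) := by
  constructor
  · rintro (_ | _) (_ | _) y
    · rfl
    · exact h.comp true false y
    · exact h.comp false true y
    · rfl
  · intro W _ ρ hρ
    let ρ' : ∀ k, Fam P Q k →* W := fun k => match k with
      | true => ρ false
      | false => ρ true
    obtain ⟨F, hF⟩ := h.lift W ρ' (by
      rintro (_ | _) (_ | _) y
      · rfl
      · exact hρ true false y
      · exact hρ false true y
      · rfl)
    refine ⟨F, ?_⟩
    rintro (_ | _) g
    · exact hF true g
    · exact hF false g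
  · intro x
    obtain ⟨L, hL⟩ := h.gen x
    refine ⟨L.map (fun p => match p with
      | ⟨true, g⟩ => ⟨false, g⟩
      | ⟨false, g⟩ => ⟨true, g⟩), ?_⟩
    rw [hL, List.map_map]
    congr 1
    apply List.map_congr_left
    rintro ⟨_ | _, g⟩ _
    · rfl
    · rfl

lemma half (G₁ G₂ : Type u) [Group G₁] [Group G₂] (hfg₁ : Group.FG G₁) (hfg₂ : Group.FG G₂)
    (h₁ : IsVirtuallyRFRS G₁) (h₂ : IsVirtuallyRFRS G₂) (a : ULift.{u} (Multiplicative ℤ) →* G₁)
    (b : ULift.{u} (Multiplicative ℤ) →* G₂) (ha : Function.Injective a) (hb : Function.Injective b)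
    (f : G₁ →* Multiplicative ℤ) (hf : f (a ⟨Multiplicative.ofAdd 1⟩) ≠ 1) {Γ : Type u} [Group Γ]
    (hΓf : Group.FG Γ) {i : G₁ →* Γ} {j : G₂ →* Γ} (hΓ : Amalg (famHom a b) (famOut i j)) :
    IsVirtuallyRFRS Γ := by
  obtain ⟨K, hK, hKr⟩ := h₁
  obtain ⟨L, hL, hLr⟩ := h₂
  have hpow : ∀ n : ℤ, (⟨Multiplicative.ofAdd 1⟩ : ULift.{u} (Multiplicative ℤ)) ^ n =
      ⟨Multiplicative.ofAdd n⟩ := by
    intro n
    apply ULift.ext
    show (Multiplicative.ofAdd (1 : ℤ)) ^ n = Multiplicative.ofAdd n
    rw [← ofAdd_zsmul, smul_eq_mul, mul_one]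
  obtain ⟨M, hM, hMT⟩ := K4H11.RFRS.main hfg₁ hfg₂ a b ha hb hΓ ⟨Multiplicative.ofAdd 1⟩ (fun h =>
    ⟨(Multiplicative.toAdd h.down), by rw [hpow]; rfl⟩) (fun n hn => by
      rw [hpow] at hn
      have h3 : Multiplicative.ofAdd n = 1 := congrArg ULift.down hn
      exact Multiplicative.ofAdd.injective h3) hK hKr hL hLr (e := fun x => (f x).toAdd)
      (fun x _ y _ => by
        show (f (x * y)).toAdd = _
        rw [map_mul, toAdd_mul]) (fun h => hf (by
          rw [← ofAdd_toAdd (f (a ⟨Multiplicative.ofAdd 1⟩))]
          show Multiplicative.ofAdd ((f (a ⟨Multiplicative.ofAdd 1⟩)).toAdd) = 1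
          rw [h]
          rfl))
  exact ⟨M, hM, K4H11.RFRS.isRFRS_of_TT hM hMT⟩

/-- **The amalgam of two finitely generated virtually RFRS groups over an infinite cyclic group whose
image in the first homology of one of the two groups is infinite is virtually RFRS.** The group
`Multiplicative ℤ` is the infinite cyclic group `C`; its image in `H₁(G)` is infinite if and only if
some homomorphism `G → ℤ` does not vanish on its generator. -/
theorem result (G₁ G₂ : Type u) [Group G₁] [Group G₂] (hfg₁ : Group.FG G₁) (hfg₂ : Group.FG G₂)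
    (h₁ : IsVirtuallyRFRS G₁) (h₂ : IsVirtuallyRFRS G₂) (a : Multiplicative ℤ →* G₁)
    (b : Multiplicative ℤ →* G₂) (ha : Function.Injective a) (hb : Function.Injective b)
    (hinf : (∃ f : G₁ →* Multiplicative ℤ, f (a (Multiplicative.ofAdd 1)) ≠ 1) ∨
      ∃ f : G₂ →* Multiplicative ℤ, f (b (Multiplicative.ofAdd 1)) ≠ 1) :
    IsVirtuallyRFRS (Amalgam a b) := by
  let dn : ULift.{u} (Multiplicative ℤ) →* Multiplicative ℤ := MulEquiv.ulift.toMonoidHom
  have hdn : Function.Injective dn := MulEquiv.ulift.injective
  let a' := a.comp dn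
  let b' := b.comp dn
  have ha' : Function.Injective a' := ha.comp hdn
  have hb' : Function.Injective b' := hb.comp hdn
  let N : Subgroup (Monoid.Coprod G₁ G₂) := Subgroup.normalClosure (Set.range fun h =>
    (Monoid.Coprod.inl (a h) : Monoid.Coprod G₁ G₂) * (Monoid.Coprod.inr (b h))⁻¹)
  have hset : (Set.range fun h => (Monoid.Coprod.inl (a h) : Monoid.Coprod G₁ G₂) *
      (Monoid.Coprod.inr (b h))⁻¹) = Set.range fun h : ULift.{u} (Multiplicative ℤ) =>
      (Monoid.Coprod.inl (a' h) : Monoid.Coprod G₁ G₂) * (Monoid.Coprod.inr (b' h))⁻¹ := by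
    ext x
    constructor
    · rintro ⟨h, rfl⟩
      exact ⟨⟨h⟩, rfl⟩
    · rintro ⟨h, rfl⟩
      exact ⟨h.down, rfl⟩
  have hΓ := coprod_amalg a' b' (QuotientGroup.mk' N) (QuotientGroup.mk'_surjective N) (by
    rw [QuotientGroup.ker_mk', ← hset])
  have hfgΓ : Group.FG (Monoid.Coprod G₁ G₂ ⧸ N) := by
    have h3 : Group.FG (Monoid.Coprod G₁ G₂) := by
      have h4 : (Monoid.Coprod.inl : G₁ →* Monoid.Coprod G₁ G₂).range.FG :=
        (Group.fg_iff_subgroup_fg _).mp (Group.fg_range _)
      have h5 : (Monoid.Coprod.inr : G₂ →* Monoid.Coprod G₁ G₂).range.FG :=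
        (Group.fg_iff_subgroup_fg _).mp (Group.fg_range _)
      rw [Group.fg_def, ← Monoid.Coprod.range_inl_sup_range_inr]
      exact h4.sup h5
    infer_instance
  rcases hinf with ⟨f, hf⟩ | ⟨f, hf⟩
  · exact half G₁ G₂ hfg₁ hfg₂ h₁ h₂ a' b' ha' hb' f hf hfgΓ hΓ
  · exact half G₂ G₁ hfg₂ hfg₁ h₂ h₁ b' a' hb' ha' f hf hfgΓ (swap hΓ)

end Pool.Agent.Results.MP_3982fc_al.InfiniteInHomology
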